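import Pool.Agent.H.MP_6bfe6b_gt.Q1

open Function Set TopologicalSpace

namespace Pool.Agent.H.MP_6bfe6b_gt

universe u

abbrev G (X : Type u) [TopologicalSpace X] : Type u := NonemptyCompacts X × X × X

section basic

variable {X Y Z : Type u} [TopologicalSpace X] [TopologicalSpace Y] [TopologicalSpace Z]

def R (g : G X) : Prop :=
  IsPreconnected (g.1 : Set X) ∧ (g.2.1 = g.2.2 ∨ (g.1 : Set X).Subsingleton)

def Rel (g h : G X) : Prop := g.1 = h.1 ∧ (g.2 = h.2 ∨ (R g ∧ R h))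

def st (X : Type u) [TopologicalSpace X] : Setoid (G X) where
  r := Rel
  iseqv :=
    { refl := fun _ => ⟨rfl, Or.inl rfl⟩
      symm := fun h => ⟨h.1.symm, h.2.elim (fun e => Or.inl e.symm) fun e => Or.inr e.symm⟩
      trans := by
        rintro g h k ⟨e1, e2⟩ ⟨e3, e4⟩
        refine ⟨e1.trans e3, ?_⟩
        rcases e2 with e2 | e2
        · have : g = h := Prod.ext e1 e2
          subst this
          exact e4
        · rcases e4 with e4 | e4
          · have : h = k := Prod.ext e3 e4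
            subst this
            exact Or.inr e2
          · exact Or.inr ⟨e2.1, e4.2⟩ }

abbrev FX (X : Type u) [TopologicalSpace X] : Type u := Quotient (st X)

def Gm (f : C(X, Y)) : C(G X, G Y) :=
  ⟨fun g => (g.1.map f f.continuous, f g.2.1, f g.2.2), by
    have := f.continuous.nonemptyCompacts_map
    fun_prop⟩

@[simp] lemma Gm_1 (f : C(X, Y)) (g : G X) : ((Gm f g).1 : Set Y) = f '' g.1 := rfl
@[simp] lemma Gm_21 (f : C(X, Y)) (g : G X) : (Gm f g).2.1 = f g.2.1 := rfl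
@[simp] lemma Gm_22 (f : C(X, Y)) (g : G X) : (Gm f g).2.2 = f g.2.2 := rfl

lemma G_ext {g h : G X} (h1 : (g.1 : Set X) = h.1) (h2 : g.2.1 = h.2.1) (h3 : g.2.2 = h.2.2) :
    g = h := Prod.ext (NonemptyCompacts.ext h1) (Prod.ext h2 h3)

lemma Gm_comp (f : C(X, Y)) (f' : C(Y, Z)) (f'' : C(X, Z)) (e : ∀ x, f' (f x) = f'' x) (g : G X) :
    Gm f' (Gm f g) = Gm f'' g := by
  apply G_ext
  · simp only [Gm_1, image_image, e]
  · simp [e]
  · simp [e]

lemma Gm_id (f : C(X, X)) (e : ∀ x, f x = x) (g : G X) : Gm f g = g := by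
  apply G_ext
  · simp only [Gm_1, e, image_id']
  · simp [e]
  · simp [e]

lemma R.map (f : C(X, Y)) {g : G X} (h : R g) : R (Gm f g) :=
  ⟨h.1.image f f.continuous.continuousOn,
    h.2.elim (fun e => Or.inl (congrArg f e)) fun e => Or.inr (e.image f)⟩

lemma Rel.map (f : C(X, Y)) {g h : G X} (e : Rel g h) : Rel (Gm f g) (Gm f h) := by
  refine ⟨NonemptyCompacts.ext (by simp [e.1]), e.2.elim (fun e' => Or.inl ?_)
    fun e' => Or.inr ⟨e'.1.map f, e'.2.map f⟩⟩
  exact Prod.ext (by simp [e']) (by simp [e'])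

def Fm (f : C(X, Y)) : C(FX X, FX Y) :=
  ⟨Quotient.map' (s₁ := st X) (s₂ := st Y) (Gm f) fun _ _ e => Rel.map f e,
    Continuous.quotient_map' (s := st X) (t := st Y) (Gm f).continuous _⟩

def mk (g : G X) : FX X := Quotient.mk (st X) g

lemma Fm_mk (f : C(X, Y)) (g : G X) : Fm f (mk g) = mk (Gm f g) := rfl

lemma mk_eq {g h : G X} : mk g = mk h ↔ Rel g h := Quotient.eq (r := st X)

lemma mk_surj (a : FX X) : ∃ g, mk g = a := Quotient.exists_rep a

lemma mk_cont : Continuous (mk : G X → FX X) := continuous_quot_mk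

lemma R.of_map [CompactSpace X] [T2Space Y] {f : C(X, Y)} (hf : Injective f) {g : G X}
    (h : R (Gm f g)) : R g := by
  have he := f.continuous.isClosedEmbedding hf
  refine ⟨he.isInducing.isPreconnected_image.1 h.1, h.2.elim (fun e => Or.inl (hf e)) fun e =>
    Or.inr fun a ha b hb => hf (e (mem_image_of_mem f ha) (mem_image_of_mem f hb))⟩

lemma Fm_inj [CompactSpace X] [T2Space Y] {f : C(X, Y)} (hf : Injective f) : Injective (Fm f) := by
  intro a b e
  obtain ⟨g, rfl⟩ := mk_surj a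
  obtain ⟨h, rfl⟩ := mk_surj b
  rw [Fm_mk, Fm_mk, mk_eq] at e
  refine mk_eq.2 ⟨NonemptyCompacts.map_injective f.continuous hf e.1,
    e.2.elim (fun e' => Or.inl ?_) fun e' => Or.inr ⟨e'.1.of_map hf, e'.2.of_map hf⟩⟩
  exact Prod.ext (hf (congrArg Prod.fst e')) (hf (congrArg Prod.snd e'))

lemma Gm_range [CompactSpace X] [T2Space Y] (f : C(X, Y)) (g : G Y) (h1 : (g.1 : Set Y) ⊆ range f)
    (h2 : g.2.1 ∈ range f) (h3 : g.2.2 ∈ range f) : ∃ k, Gm f k = g := by
  obtain ⟨x, hx⟩ := h2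
  obtain ⟨y, hy⟩ := h3
  have hc : IsCompact (f ⁻¹' g.1) := (g.1.isCompact.isClosed.preimage f.continuous).isCompact
  have hn : (f ⁻¹' (g.1 : Set Y)).Nonempty := by
    obtain ⟨z, hz⟩ := g.1.nonempty
    obtain ⟨t, rfl⟩ := h1 hz
    exact ⟨t, hz⟩
  exact ⟨(⟨⟨_, hc⟩, hn⟩, x, y), G_ext (image_preimage_eq_of_subset h1) hx hy⟩

lemma Fm_surj [CompactSpace X] [T2Space Y] {f : C(X, Y)} (hf : Surjective f) :
    Surjective (Fm f) := by
  intro b
  obtain ⟨g, rfl⟩ := mk_surj b
  obtain ⟨k, rfl⟩ := Gm_range f g (fun y _ => hf y) (hf _) (hf _)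
  exact ⟨mk k, rfl⟩

lemma isClosed_conn [CompactSpace X] [T2Space X] :
    IsClosed {A : NonemptyCompacts X | IsPreconnected (A : Set X)} := by
  rw [← isOpen_compl_iff, isOpen_iff_forall_mem_open]
  intro A hA
  have hA' : ¬ IsPreconnected (A : Set X) := hA
  rw [isPreconnected_iff_subset_of_fully_disjoint_closed A.isCompact.isClosed] at hA'
  push Not at hA'
  obtain ⟨u, v, hu, hv, hs, hd, h1, h2⟩ := hA'
  obtain ⟨U, V, hU, hV, huU, hvV, hUV⟩ := normal_separation hu hv hd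
  refine ⟨{B | (B : Set X) ⊆ U ∪ V} ∩ {B | ((B : Set X) ∩ U).Nonempty} ∩
    {B | ((B : Set X) ∩ V).Nonempty}, ?_, ?_, ?_⟩
  · rintro B ⟨⟨b1, b2⟩, b3⟩ hB
    obtain ⟨z, -, hz⟩ := hB U V hU hV b1 b2 b3
    exact hUV.notMem_of_mem_left hz.1 hz.2
  · exact ((NonemptyCompacts.isOpen_subsets_of_isOpen (hU.union hV)).inter
      (NonemptyCompacts.isOpen_inter_nonempty_of_isOpen hU)).inter
      (NonemptyCompacts.isOpen_inter_nonempty_of_isOpen hV)
  · obtain ⟨x, hx, hx'⟩ := not_subset.1 h1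
    obtain ⟨y, hy, hy'⟩ := not_subset.1 h2
    exact ⟨⟨hs.trans (union_subset_union huU hvV), y, hy, huU ((hs hy).resolve_right hy')⟩,
      x, hx, hvV ((hs hx).resolve_left hx')⟩

lemma isClosed_sub [T2Space X] :
    IsClosed {A : NonemptyCompacts X | (A : Set X).Subsingleton} := by
  convert (NonemptyCompacts.isClosedEmbedding_singleton (α := X)).isClosed_range using 1
  ext A
  constructor
  · intro h
    obtain ⟨x, hx⟩ := A.nonempty
    exact ⟨x, NonemptyCompacts.ext (h.eq_singleton_of_mem hx).symm⟩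
  · rintro ⟨x, rfl⟩
    exact subsingleton_singleton

lemma isClosed_R [CompactSpace X] [T2Space X] : IsClosed {g : G X | R g} :=
  (isClosed_conn.preimage continuous_fst).inter
    ((isClosed_eq (continuous_fst.comp continuous_snd) (continuous_snd.comp continuous_snd)).union
      (isClosed_sub.preimage continuous_fst))

lemma exists_collapse2 (Y : Type u) [TopologicalSpace Y] [CompactSpace Y] [T2Space Y] (Z : Set Y)
    (hZ : IsClosed Z) :
    ∃ (Φ : Type u) (q : C(Y, Φ → unitInterval)), (∀ z ∈ Z, q z = fun _ => 0) ∧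
      ∀ y y', y ∉ Z → q y = q y' → y = y' := by
  refine ⟨{φ : C(Y, unitInterval) // ∀ z ∈ Z, φ z = 0},
    ⟨fun y φ => φ.1 y, continuous_pi fun φ => φ.1.continuous⟩, ?_, ?_⟩
  · intro y hy
    funext φ
    exact φ.2 y hy
  · intro y y' hyZ hy
    by_contra hne
    obtain ⟨g, hg0, hg1, hg⟩ := exists_continuous_zero_one_of_isClosed
      (hZ.union (isClosed_singleton (x := y')))
      (isClosed_singleton (x := y)) (disjoint_singleton_right.2 fun h => h.elim hyZ hne)
    let φ : {φ : C(Y, unitInterval) // ∀ z ∈ Z, φ z = 0} :=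
      ⟨⟨fun t => ⟨g t, hg t⟩, by fun_prop⟩, fun z hz => Subtype.ext (hg0 (Or.inl hz))⟩
    have h1 : φ.1 y = φ.1 y' := congrFun hy φ
    have h2 : g y = g y' := congrArg Subtype.val h1
    have h3 : g y = 1 := hg1 rfl
    have h4 : g y' = 0 := hg0 (Or.inr rfl)
    linarith

instance t2_FX [CompactSpace X] [T2Space X] : T2Space (FX X) := by
  obtain ⟨Φ, q, h0, h1⟩ := exists_collapse2 (G X) {g | R g} isClosed_R
  have hw : ∀ g h : G X, Rel g h → (g.1, q g) = (h.1, q h) := by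
    rintro g h ⟨e1, e2 | e2⟩
    · rw [show g = h from Prod.ext e1 e2]
    · rw [e1, h0 g e2.1, h0 h e2.2]
  refine T2Space.of_injective_continuous
    (f := Quotient.lift (s := st X) (fun g => (g.1, q g)) hw) ?_
    (Continuous.quotient_lift (s := st X) (by fun_prop) hw)
  intro a b e
  obtain ⟨g, rfl⟩ := mk_surj a
  obtain ⟨h, rfl⟩ := mk_surj b
  have e' : (g.1, q g) = (h.1, q h) := e
  by_cases hg : R g
  · by_cases hh : R h
    · exact mk_eq.2 ⟨(Prod.mk.inj e').1, Or.inr ⟨hg, hh⟩⟩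
    · rw [h1 h g hh (congrArg Prod.snd e').symm]
  · rw [h1 g h hg (congrArg Prod.snd e')]

end basic

end Pool.Agent.H.MP_6bfe6b_gt
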