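import Pool.Agent.H.MP_6bfe6b_gt.A

open Function Set TopologicalSpace

namespace Pool.Agent.H.MP_6bfe6b_gt

universe u

section spec

variable {J : Type u} [Preorder J] [IsDirectedOrder J] [Nonempty J]

lemma threads {Xs : J → Type u} [∀ j, TopologicalSpace (Xs j)] [∀ j, CompactSpace (Xs j)]
    [∀ j, T2Space (Xs j)] (b : ∀ i j, i ≤ j → C(Xs j, Xs i))
    (hb : ∀ i j k (hij : i ≤ j) (hjk : j ≤ k) z, b i j hij (b j k hjk z) = b i k (hij.trans hjk) z)
    (T : ∀ j, Set (Xs j)) (hT : ∀ j, IsClosed (T j)) (hne : ∀ j, (T j).Nonempty)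
    (hm : ∀ i j h, MapsTo (b i j h) (T j) (T i)) :
    ∃ t : ∀ j, Xs j, (∀ j, t j ∈ T j) ∧ ∀ i j h, b i j h (t j) = t i := by
  classical
  let C : J → Set (∀ j, Xs j) := fun k =>
    {t | ∀ j, t j ∈ T j} ∩ {t | ∀ i (h : i ≤ k), b i k h (t k) = t i}
  have hcl : ∀ k, IsClosed (C k) := fun k => by
    refine IsClosed.inter ?_ ?_
    · simp only [ofPred_forall]
      exact isClosed_iInter fun j => (hT j).preimage (continuous_apply j)
    · simp only [ofPred_forall]
      exact isClosed_iInter fun i => isClosed_iInter fun h =>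
        isClosed_eq ((b i k h).continuous.comp (continuous_apply k)) (continuous_apply i)
  have hmono : ∀ k k', k ≤ k' → C k' ⊆ C k := fun k k' hk t ht =>
    ⟨ht.1, fun i h => by rw [← ht.2 k hk, hb, ht.2]⟩
  have hdir : Directed (· ⊇ ·) C := fun k k' => by
    obtain ⟨m, h1, h2⟩ := exists_ge_ge k k'
    exact ⟨m, hmono _ _ h1, hmono _ _ h2⟩
  have hn : ∀ k, (C k).Nonempty := fun k => by
    obtain ⟨y, hy⟩ := hne k
    refine ⟨fun i => if h : i ≤ k then b i k h y else (hne i).some, fun j => ?_, fun i h => ?_⟩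
    · by_cases h : j ≤ k
      · simp only [h, dif_pos]
        exact hm _ _ _ hy
      · simp only [h, dif_neg, not_false_iff]
        exact (hne j).some_mem
    · simp only [h, dif_pos, le_refl, hb]
  obtain ⟨t, ht⟩ := IsCompact.nonempty_iInter_of_directed_nonempty_isCompact_isClosed C hdir hn
    (fun k => (hcl k).isCompact) hcl
  rw [mem_iInter] at ht
  exact ⟨t, (ht (Classical.arbitrary J)).1, fun i j h => (ht j).2 i h⟩

variable {Xs : J → Type u} [∀ j, TopologicalSpace (Xs j)] [∀ j, CompactSpace (Xs j)]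
  [∀ j, T2Space (Xs j)] {b : ∀ i j, i ≤ j → C(Xs j, Xs i)}
  {L : Type u} [TopologicalSpace L] [CompactSpace L] [T2Space L] {p : ∀ j, C(L, Xs j)}

lemma sep_closed (hp : ∀ i j h x, b i j h (p j x) = p i x)
    (hs : ∀ x y, (∀ j, p j x = p j y) → x = y) {A B : Set L} (hA : IsClosed A) (hB : IsClosed B)
    (h : ∀ j, (p j '' A ∩ p j '' B).Nonempty) : (A ∩ B).Nonempty := by
  let D : J → Set (L × L) := fun j => A ×ˢ B ∩ {z | p j z.1 = p j z.2}
  have hcl : ∀ j, IsClosed (D j) := fun j =>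
    (hA.prod hB).inter (isClosed_eq (by fun_prop) (by fun_prop))
  have hmono : ∀ k k', k ≤ k' → D k' ⊆ D k := fun k k' hk z hz =>
    ⟨hz.1, by
      show p k z.1 = p k z.2
      rw [← hp k k' hk, ← hp k k' hk, show p k' z.1 = p k' z.2 from hz.2]⟩
  have hdir : Directed (· ⊇ ·) D := fun k k' => by
    obtain ⟨m, h1, h2⟩ := exists_ge_ge k k'
    exact ⟨m, hmono _ _ h1, hmono _ _ h2⟩
  have hn : ∀ k, (D k).Nonempty := fun k => by
    obtain ⟨_, ⟨x, hx, rfl⟩, y, hy, e⟩ := h k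
    exact ⟨(x, y), ⟨hx, hy⟩, e.symm⟩
  obtain ⟨z, hz⟩ := IsCompact.nonempty_iInter_of_directed_nonempty_isCompact_isClosed D hdir hn
    (fun k => (hcl k).isCompact) hcl
  rw [mem_iInter] at hz
  have := (hz (Classical.arbitrary J)).1
  have e : z.1 = z.2 := hs _ _ fun j => (hz j).2
  exact ⟨z.1, this.1, e ▸ this.2⟩

lemma sub_closed (hp : ∀ i j h x, b i j h (p j x) = p i x)
    (hs : ∀ x y, (∀ j, p j x = p j y) → x = y) {A B : Set L} (hB : IsClosed B)
    (h : ∀ j, p j '' A ⊆ p j '' B) : A ⊆ B := by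
  intro x hx
  obtain ⟨y, hy, hy'⟩ := sep_closed hp hs (isClosed_singleton (x := x)) hB fun j =>
    ⟨p j x, ⟨x, rfl, rfl⟩, h j ⟨x, hx, rfl⟩⟩
  rwa [← show y = x from hy]

lemma conn_lim (hp : ∀ i j h x, b i j h (p j x) = p i x)
    (hs : ∀ x y, (∀ j, p j x = p j y) → x = y) {A : Set L} (hA : IsClosed A)
    (h : ∀ j, IsPreconnected (p j '' A)) : IsPreconnected A := by
  rw [isPreconnected_closed_iff]
  intro u v hu hv huv h1 h2
  have : (A ∩ u ∩ (A ∩ v)).Nonempty := by
    refine sep_closed hp hs (hA.inter hu) (hA.inter hv) fun j => ?_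
    have c1 : IsClosed (p j '' (A ∩ u)) :=
      ((hA.inter hu).isCompact.image (p j).continuous).isClosed
    have c2 : IsClosed (p j '' (A ∩ v)) :=
      ((hA.inter hv).isCompact.image (p j).continuous).isClosed
    obtain ⟨z, -, hz⟩ := isPreconnected_closed_iff.1 (h j) _ _ c1 c2 (by
      rintro _ ⟨x, hx, rfl⟩
      exact (huv hx).elim (fun e => Or.inl ⟨x, ⟨hx, e⟩, rfl⟩) fun e => Or.inr ⟨x, ⟨hx, e⟩, rfl⟩)
      (by obtain ⟨x, hx⟩ := h1; exact ⟨_, ⟨x, hx.1, rfl⟩, x, hx, rfl⟩)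
      (by obtain ⟨x, hx⟩ := h2; exact ⟨_, ⟨x, hx.1, rfl⟩, x, hx, rfl⟩)
    exact ⟨z, hz⟩
  obtain ⟨z, h3, h4⟩ := this
  exact ⟨z, h3.1, h3.2, h4.2⟩

lemma R_lim (hp : ∀ i j h x, b i j h (p j x) = p i x)
    (hs : ∀ x y, (∀ j, p j x = p j y) → x = y) {g : G L} (h : ∀ j, R (Gm (p j) g)) : R g := by
  refine ⟨conn_lim hp hs g.1.isCompact.isClosed fun j => (h j).1, ?_⟩
  by_cases e : g.2.1 = g.2.2
  · exact Or.inl e
  · right
    obtain ⟨j0, hj0⟩ : ∃ j0, p j0 g.2.1 ≠ p j0 g.2.2 := by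
      by_contra hc
      push Not at hc
      exact e (hs _ _ hc)
    intro x hx y hy
    refine hs _ _ fun j => ?_
    obtain ⟨k, h1, h2⟩ := exists_ge_ge j j0
    rcases (h k).2 with e' | e'
    · exact absurd (by
        rw [← hp j0 k h2, ← hp j0 k h2, show p k g.2.1 = p k g.2.2 from e']) hj0
    · rw [← hp j k h1, ← hp j k h1, e' (mem_image_of_mem _ hx) (mem_image_of_mem _ hy)]

lemma lim_inj (hp : ∀ i j h x, b i j h (p j x) = p i x)
    (hs : ∀ x y, (∀ j, p j x = p j y) → x = y) (a a' : FX L)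
    (h : ∀ j, Fm (p j) a = Fm (p j) a') : a = a' := by
  obtain ⟨g, rfl⟩ := mk_surj a
  obtain ⟨g', rfl⟩ := mk_surj a'
  have h' : ∀ j, Rel (Gm (p j) g) (Gm (p j) g') := fun j => mk_eq.1 (h j)
  have e1 : ∀ j, p j '' g.1 = p j '' g'.1 := fun j =>
    congrArg (fun K : NonemptyCompacts (Xs j) => (K : Set (Xs j))) (h' j).1
  refine mk_eq.2 ⟨NonemptyCompacts.ext (Subset.antisymm
    (sub_closed hp hs g'.1.isCompact.isClosed fun j => (e1 j).le)
    (sub_closed hp hs g.1.isCompact.isClosed fun j => (e1 j).ge)), ?_⟩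
  by_cases e : g.2 = g'.2
  · exact Or.inl e
  · right
    obtain ⟨j0, hj0⟩ : ∃ j0, (Gm (p j0) g).2 ≠ (Gm (p j0) g').2 := by
      by_contra hc
      push Not at hc
      exact e (Prod.ext (hs _ _ fun j => congrArg Prod.fst (hc j))
        (hs _ _ fun j => congrArg Prod.snd (hc j)))
    have key : ∀ j, R (Gm (p j) g) ∧ R (Gm (p j) g') := fun j => by
      obtain ⟨k, h1, h2⟩ := exists_ge_ge j j0
      rcases (h' k).2 with e' | e'
      · exfalso
        apply hj0
        have : Gm (p k) g = Gm (p k) g' := Prod.ext (h' k).1 e'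
        rw [← Gm_comp (p k) (b j0 k h2) (p j0) (hp _ _ _),
          ← Gm_comp (p k) (b j0 k h2) (p j0) (hp _ _ _), this]
      · rw [← Gm_comp (p k) (b j k h1) (p j) (hp _ _ _),
          ← Gm_comp (p k) (b j k h1) (p j) (hp _ _ _)]
        exact ⟨e'.1.map _, e'.2.map _⟩
    exact ⟨R_lim hp hs fun j => (key j).1, R_lim hp hs fun j => (key j).2⟩

lemma lim_surj
    (hb : ∀ i j k (hij : i ≤ j) (hjk : j ≤ k) z, b i j hij (b j k hjk z) = b i k (hij.trans hjk) z)
    (hp : ∀ i j h x, b i j h (p j x) = p i x)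
    (ht : ∀ t : ∀ j, Xs j, (∀ i j h, b i j h (t j) = t i) → ∃ x, ∀ j, p j x = t j)
    (a : ∀ j, FX (Xs j)) (ha : ∀ i j h, Fm (b i j h) (a j) = a i) :
    ∃ x : FX L, ∀ j, Fm (p j) x = a j := by
  obtain ⟨g, hg, hgb⟩ := threads (Xs := fun j => G (Xs j)) (fun i j h => Gm (b i j h))
    (fun i j k hij hjk z => Gm_comp _ _ _ (hb i j k hij hjk) z) (fun j => mk ⁻¹' {a j})
    (fun j => isClosed_singleton.preimage mk_cont) (fun j => mk_surj (a j))
    (fun i j h g hg => by
      have : mk g = a j := hg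
      show mk (Gm (b i j h) g) = a i
      rw [← Fm_mk, this, ha])
  obtain ⟨w1, hw1⟩ := ht (fun j => (g j).2.1) fun i j h => congrArg (fun z => z.2.1) (hgb i j h)
  obtain ⟨w2, hw2⟩ := ht (fun j => (g j).2.2) fun i j h => congrArg (fun z => z.2.2) (hgb i j h)
  have hA : ∀ i j h, b i j h '' (g j).1 = (g i).1 := fun i j h =>
    congrArg (fun z : G (Xs i) => (z.1 : Set (Xs i))) (hgb i j h)
  let A : Set L := ⋂ j, p j ⁻¹' (g j).1
  have hcl : IsClosed A :=
    isClosed_iInter fun j => (g j).1.isCompact.isClosed.preimage (p j).continuous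
  have hpA : ∀ k, p k '' A = (g k).1 := fun k => by
    apply Subset.antisymm
    · rintro _ ⟨x, hx, rfl⟩
      exact mem_iInter.1 hx k
    · intro y hy
      obtain ⟨t, ht1, ht2⟩ := threads b hb
        (fun j => ((g j).1 : Set (Xs j)) ∩ {z | ∀ h : k ≤ j, b k j h z = y})
        (fun j => (g j).1.isCompact.isClosed.inter (by
          simp only [ofPred_forall]
          exact isClosed_iInter fun h => isClosed_eq (b k j h).continuous continuous_const))
        (fun j => by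
          by_cases h : k ≤ j
          · rw [← hA k j h] at hy
            obtain ⟨z, hz, e⟩ := hy
            exact ⟨z, hz, fun _ => e⟩
          · obtain ⟨z, hz⟩ := (g j).1.nonempty
            exact ⟨z, hz, fun h' => absurd h' h⟩)
        (fun i j h z hz => ⟨by rw [← hA i j h]; exact mem_image_of_mem _ hz.1,
          fun h' => by rw [hb]; exact hz.2 _⟩)
      obtain ⟨x, hx⟩ := ht t ht2
      refine ⟨x, mem_iInter.2 fun j => ?_, ?_⟩
      · show p j x ∈ ((g j).1 : Set (Xs j))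
        rw [hx]
        exact (ht1 j).1
      · rw [← hp k k le_rfl, hx]
        exact (ht1 k).2 _
  have hn : A.Nonempty := by
    have := (g (Classical.arbitrary J)).1.nonempty
    rw [← hpA] at this
    exact this.of_image
  refine ⟨mk (⟨⟨A, hcl.isCompact⟩, hn⟩, w1, w2), fun j => ?_⟩
  rw [Fm_mk, ← show mk (g j) = a j from hg j]
  congr 1
  exact G_ext (hpA j) (hw1 j) (hw2 j)

end spec

end Pool.Agent.H.MP_6bfe6b_gt
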