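import Pool.Agent.H.MP_6bfe6b_gt.B

open CategoryTheory CategoryTheory.Limits Function Set TopologicalSpace Opposite

namespace Pool.Agent.H.MP_6bfe6b_gt

universe u

/-- the counterexample functor. -/
def FF : CompHaus.{u} ⥤ CompHaus.{u} where
  obj X := CompHaus.of (FX X)
  map f := ConcreteCategory.ofHom (C := CompHaus.{u}) (Fm (ConcreteCategory.hom f))
  map_id X := by
    ext a
    obtain ⟨g, rfl⟩ := mk_surj a
    exact congrArg mk (Gm_id _ (fun _ => rfl) g)
  map_comp f f' := by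
    ext a
    obtain ⟨g, rfl⟩ := mk_surj a
    exact congrArg mk (Gm_comp _ _ _ (fun _ => rfl) g).symm

lemma lift_cont {K : Type u} {A L : Type u} [TopologicalSpace A] [TopologicalSpace L]
    [CompactSpace L] {Xs : K → Type u} [∀ j, TopologicalSpace (Xs j)] [∀ j, T2Space (Xs j)]
    (p : ∀ j, C(L, Xs j)) (hs : ∀ x y, (∀ j, p j x = p j y) → x = y) (l : A → L)
    (hl : ∀ j, Continuous fun a => p j (l a)) : Continuous l := by
  have hc : Continuous fun x j => p j x := continuous_pi fun j => (p j).continuous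
  have he := hc.isClosedEmbedding fun x y e => hs x y fun j => congrFun e j
  exact he.isInducing.continuous_iff.2 (continuous_pi hl)

lemma isLimit_of {K : Type u} [SmallCategory K] {S : K ⥤ CompHaus.{u}} (c : Cone S)
    (hs : ∀ x y : c.pt, (∀ j, c.π.app j x = c.π.app j y) → x = y)
    (ht : ∀ t : ∀ j, S.obj j, (∀ i j (h : i ⟶ j), S.map h (t i) = t j) →
      ∃ x : c.pt, ∀ j, c.π.app j x = t j) : Nonempty (IsLimit c) := by
  have h1 : ∀ (s : Cone S) (a : s.pt), ∃ x : c.pt, ∀ j, c.π.app j x = s.π.app j a :=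
    fun s a => ht (fun j => s.π.app j a) fun i j h => congrArg (fun g : s.pt ⟶ S.obj j => g a) (s.w h)
  choose l hl using h1
  have hc : ∀ s, Continuous (l s) := fun s =>
    lift_cont (Xs := fun j => S.obj j) (fun j => ConcreteCategory.hom (c.π.app j)) hs (l s)
      fun j => by
        have : (fun a => ConcreteCategory.hom (c.π.app j) (l s a)) =
            ConcreteCategory.hom (s.π.app j) := funext fun a => hl s a j
        exact this ▸ (ConcreteCategory.hom (s.π.app j)).continuous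
  refine ⟨⟨fun s => ConcreteCategory.ofHom (C := CompHaus.{u}) ⟨l s, hc s⟩, fun s j => ?_,
    fun s m hm => ?_⟩⟩
  · ext a
    exact hl s a j
  · ext a
    refine hs _ _ fun j => ?_
    exact (congrArg (fun g : s.pt ⟶ S.obj j => g a) (hm j)).trans (hl s a j).symm

lemma of_isLimit {K : Type u} [SmallCategory K] {S : K ⥤ CompHaus.{u}} {c : Cone S}
    (hc : IsLimit c) : (∀ x y : c.pt, (∀ j, c.π.app j x = c.π.app j y) → x = y) ∧
    ∀ t : ∀ j, S.obj j, (∀ i j (h : i ⟶ j), S.map h (t i) = t j) →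
      ∃ x : c.pt, ∀ j, c.π.app j x = t j := by
  let P : CompHaus.{u} := CompHaus.of PUnit.{u+1}
  let k : ∀ (X : CompHaus.{u}), X → (P ⟶ X) := fun X x =>
    ConcreteCategory.ofHom (C := CompHaus.{u}) (ContinuousMap.const _ x)
  constructor
  · intro x y h
    have : k _ x = k _ y := hc.hom_ext fun j => by
      ext a
      exact h j
    exact congrArg (fun g : P ⟶ c.pt => g PUnit.unit) this
  · intro t ht
    let s : Cone S := ⟨P, ⟨fun j => k _ (t j), fun i j h => by
      ext a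
      exact (ht i j h).symm⟩⟩
    exact ⟨hc.lift s PUnit.unit, fun j =>
      congrArg (fun g : P ⟶ S.obj j => g PUnit.unit) (hc.fac s j)⟩

lemma FF_cont : ContinuousFunctor FF.{u} := by
  intro J _ _ _
  refine ⟨fun {S} => ⟨fun {c} hc => ?_⟩⟩
  obtain ⟨hs, ht⟩ := of_isLimit hc
  let b : ∀ i j : J, i ≤ j → C(S.obj (op j), S.obj (op i)) := fun i j h =>
    ConcreteCategory.hom (S.map (homOfLE h).op)
  let p : ∀ j : J, C(c.pt, S.obj (op j)) := fun j => ConcreteCategory.hom (c.π.app (op j))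
  have hb : ∀ i j k (hij : i ≤ j) (hjk : j ≤ k) z,
      b i j hij (b j k hjk z) = b i k (hij.trans hjk) z := fun i j k hij hjk z =>
    (congrArg (fun g : S.obj (op k) ⟶ S.obj (op i) => g z)
      (S.map_comp (homOfLE hjk).op (homOfLE hij).op)).symm
  have hp : ∀ i j h x, b i j h (p j x) = p i x := fun i j h x =>
    congrArg (fun g : c.pt ⟶ S.obj (op i) => g x) (c.w (homOfLE h).op)
  apply isLimit_of
  · intro x y h
    exact lim_inj (Xs := fun j => S.obj (op j)) hp (fun x y h => hs x y fun j => h j.unop) x y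
      fun j => h (op j)
  · intro t h
    obtain ⟨x, hx⟩ := lim_surj (Xs := fun j => S.obj (op j)) hb hp (fun t h => by
        obtain ⟨x, hx⟩ := ht (fun j => t j.unop) fun i j e => h j.unop i.unop e.unop.le
        exact ⟨x, fun j => hx (op j)⟩)
      (fun j => t (op j)) fun i j e => h (op j) (op i) (homOfLE e).op
    exact ⟨x, fun j => hx j.unop⟩

lemma FF_mec : Mec FF.{u} :=
  ⟨fun _ _ _ hf => Fm_inj hf, fun _ _ _ hf => Fm_surj hf, FF_cont⟩

lemma bicomm_of (F : CompHaus.{u} ⥤ CompHaus.{u}) (hm : Monomorphic F)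
    {X' Y' X Y : CompHaus.{u}} {f' : X' ⟶ Y'} {f : X ⟶ Y} {pX : X' ⟶ X} {pY : Y' ⟶ Y}
    (hf : Injective f) (hc : pX ≫ f = f' ≫ pY)
    (h : ∀ a b, F.map pY b = F.map f a → ∃ t, F.map f' t = b) :
    Bicomm (F.map f') (F.map f) (F.map pX) (F.map pY) := by
  have hcF : F.map pX ≫ F.map f = F.map f' ≫ F.map pY := by
    rw [← F.map_comp, hc, F.map_comp]
  refine ⟨hcF, fun a => ?_⟩
  have hca : ∀ c, F.map f (F.map pX c) = F.map pY (F.map f' c) := fun c => by
    rw [← map_comp_apply, ← map_comp_apply, hc]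
  apply Subset.antisymm
  · rintro _ ⟨c, hc', rfl⟩
    have : F.map pX c = a := hc'
    show F.map pY (F.map f' c) = F.map f a
    rw [← hca, this]
  · intro b hb'
    have hb2 : F.map pY b = F.map f a := hb'
    obtain ⟨t, ht⟩ := h a b hb2
    refine ⟨t, ?_, ht⟩
    show F.map pX t = a
    apply hm f hf
    rw [hca, ht, hb2]

lemma fin_aux {X' Y' X Y : Type u} [TopologicalSpace X'] [TopologicalSpace Y']
    [TopologicalSpace X] [TopologicalSpace Y] [CompactSpace X'] [T2Space Y'] [T2Space X]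
    [T2Space Y] [Finite X]
    {f' : C(X', Y')} {f : C(X, Y)} {pX : C(X', X)} {pY : C(Y', Y)} (hf : Injective f)
    (hX : Injective pX) (hb : ∀ x, f' '' (pX ⁻¹' {x}) = pY ⁻¹' {f x}) (a : FX X) (b : FX Y')
    (e : Fm pY b = Fm f a) : ∃ t, Fm f' t = b := by
  obtain ⟨g, rfl⟩ := mk_surj a
  obtain ⟨h, rfl⟩ := mk_surj b
  rw [Fm_mk, Fm_mk, mk_eq] at e
  have hr : ∀ y x, pY y = f x → ∃ t, pX t = x ∧ f' t = y := fun y x hy => by
    have : y ∈ pY ⁻¹' {f x} := hy
    rw [← hb] at this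
    exact this
  have e1 : pY '' h.1 = f '' g.1 := congrArg (fun K : NonemptyCompacts Y => (K : Set Y)) e.1
  have hB : ∀ y ∈ (h.1 : Set Y'), ∃ t, pX t ∈ (g.1 : Set X) ∧ f' t = y := fun y hy => by
    have : pY y ∈ f '' g.1 := e1 ▸ mem_image_of_mem _ hy
    obtain ⟨x, hx, e'⟩ := this
    obtain ⟨t, rfl, ht⟩ := hr y x e'.symm
    exact ⟨t, hx, ht⟩
  have hB' : (h.1 : Set Y') ⊆ range f' := fun y hy => (hB y hy).imp fun _ k => k.2
  rcases e.2 with e2 | e2
  · obtain ⟨k, hk⟩ := Gm_range f' h hB'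
      ((hr _ _ (congrArg Prod.fst e2)).imp fun _ k => k.2)
      ((hr _ _ (congrArg Prod.snd e2)).imp fun _ k => k.2)
    exact ⟨mk k, by rw [Fm_mk, hk]⟩
  · have hg : (g.1 : Set X).Subsingleton := (R.of_map hf e2.2).1.subsingleton
    have hh : (h.1 : Set Y').Subsingleton := fun y hy y' hy' => by
      obtain ⟨t, ht, rfl⟩ := hB y hy
      obtain ⟨t', ht', rfl⟩ := hB y' hy'
      rw [hX (hg ht ht')]
    obtain ⟨y, hy⟩ := h.1.nonempty
    obtain ⟨k, hk⟩ := Gm_range f' (h.1, y, y) hB' (hB' hy) (hB' hy)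
    refine ⟨mk k, ?_⟩
    rw [Fm_mk, hk, mk_eq]
    exact ⟨rfl, Or.inr ⟨⟨hh.isPreconnected, Or.inr hh⟩, hh.isPreconnected, Or.inr hh⟩⟩

lemma FF_fin : PreservesFiniteOnePreimages FF.{u} := by
  intro X' Y' X Y f' f pX pY hf _ hX hfin hb
  exact bicomm_of FF FF_mec.1 hf hb.1 fun a b e => fin_aux hf hX.1 hb.2 a b e

abbrev CI : Type u := ULift.{u} unitInterval

lemma FF_not : ¬ PreservesOnePreimages FF.{u} := by
  intro h
  let X : CompHaus.{u} := CompHaus.of CI.{u}
  let Y' : CompHaus.{u} := CompHaus.of (CI.{u} ⊕ ULift.{u} Bool)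
  let Y : CompHaus.{u} := CompHaus.of (CI.{u} ⊕ PUnit.{u+1})
  let i' : C(CI.{u}, CI.{u} ⊕ ULift.{u} Bool) := ⟨Sum.inl, continuous_inl⟩
  let i : C(CI.{u}, CI.{u} ⊕ PUnit.{u+1}) := ⟨Sum.inl, continuous_inl⟩
  let q : C(CI.{u} ⊕ ULift.{u} Bool, CI.{u} ⊕ PUnit.{u+1}) :=
    ⟨Sum.map id fun _ => PUnit.unit, continuous_id.sumMap continuous_const⟩
  let f' : X ⟶ Y' := ConcreteCategory.ofHom (C := CompHaus.{u}) i'
  let f : X ⟶ Y := ConcreteCategory.ofHom (C := CompHaus.{u}) i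
  let pY : Y' ⟶ Y := ConcreteCategory.ofHom (C := CompHaus.{u}) q
  have hb : Bicomm f' f (𝟙 X) pY := by
    refine ⟨rfl, fun x => ?_⟩
    ext y
    constructor
    · rintro ⟨t, ht, rfl⟩
      have : t = x := ht
      subst this
      rfl
    · intro hy
      have hy' : q y = Sum.inl x := hy
      rcases y with y | y
      · exact ⟨y, Sum.inl_injective hy', rfl⟩
      · exact absurd hy' Sum.inr_ne_inl
  have hU : _root_.IsPreconnected (univ : Set CI.{u}) := by
    have := isPreconnected_range (continuous_uliftUp (X := unitInterval))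
    rwa [ULift.up_surjective.range_eq] at this
  let z : CI.{u} := ⟨0⟩
  let A : NonemptyCompacts CI.{u} := ⟨⟨univ, isCompact_univ⟩, z, trivial⟩
  let g : G CI.{u} := (A, z, z)
  let g' : G (CI.{u} ⊕ ULift.{u} Bool) := ((Gm i' g).1, Sum.inr ⟨true⟩, Sum.inr ⟨false⟩)
  have hR : R g := ⟨hU, Or.inl rfl⟩
  have key := (h f' f (𝟙 X) pY Sum.inl_injective Sum.inl_injective bijective_id hb).2 (mk g)
  have e0 : ((Gm q g').1 : Set (CI.{u} ⊕ PUnit.{u+1})) = ((Gm i g).1 : Set (CI.{u} ⊕ PUnit.{u+1})) :=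
    image_image q i' univ
  have hm : (mk g' : FX _) ∈ FF.map pY ⁻¹' {FF.map f (mk g)} := by
    show mk (Gm q g') = mk (Gm i g)
    exact mk_eq.2 ⟨NonemptyCompacts.ext e0, Or.inr ⟨⟨e0 ▸ (hR.map i).1, Or.inl rfl⟩, hR.map i⟩⟩
  rw [← key] at hm
  obtain ⟨t, -, ht⟩ := hm
  obtain ⟨k, rfl⟩ := mk_surj t
  have ht' : Rel (Gm i' k) g' := mk_eq.1 ht
  rcases ht'.2 with e | ⟨-, -, e | e⟩
  · exact Sum.inl_ne_inr (congrArg Prod.fst e)
  · exact absurd (congrArg ULift.down (Sum.inr_injective e)) (by decide)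
  · have := Sum.inl_injective
      (e (mem_image_of_mem i' (mem_univ z)) (mem_image_of_mem i' (mem_univ (⟨1⟩ : CI.{u}))))
    exact zero_ne_one (congrArg ULift.down this)

end Pool.Agent.H.MP_6bfe6b_gt
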