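import Mathlib

open CategoryTheory CategoryTheory.Limits Function Set

namespace Pool.Agent.H.MP_6bfe6b_gt

universe u

/-- `F` sends injective maps to injective maps. -/
def Monomorphic (F : CompHaus.{u} ⥤ CompHaus.{u}) : Prop :=
  ∀ ⦃X Y : CompHaus.{u}⦄ (f : X ⟶ Y), Injective f → Injective (F.map f)

/-- `F` sends surjective maps to surjective maps. -/
def Epimorphic (F : CompHaus.{u} ⥤ CompHaus.{u}) : Prop :=
  ∀ ⦃X Y : CompHaus.{u}⦄ (f : X ⟶ Y), Surjective f → Surjective (F.map f)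

/-- `F` preserves limits of inverse spectra, that is of diagrams indexed by the opposite of a
nonempty directed preorder. -/
def ContinuousFunctor (F : CompHaus.{u} ⥤ CompHaus.{u}) : Prop :=
  ∀ (J : Type u) [Preorder J] [IsDirectedOrder J] [Nonempty J], PreservesLimitsOfShape Jᵒᵖ F

/-- mec functors: monomorphic, epimorphic and continuous. -/
def Mec (F : CompHaus.{u} ⥤ CompHaus.{u}) : Prop :=
  Monomorphic F ∧ Epimorphic F ∧ ContinuousFunctor F

/-- The square commutes and is bicommutative. -/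
def Bicomm {X' Y' X Y : CompHaus.{u}} (f' : X' ⟶ Y') (f : X ⟶ Y) (pX : X' ⟶ X) (pY : Y' ⟶ Y) :
    Prop :=
  pX ≫ f = f' ≫ pY ∧ ∀ x : X, f' '' (pX ⁻¹' {x}) = pY ⁻¹' {f x}

/-- `F` preserves preimages. -/
def PreservesPreimages (F : CompHaus.{u} ⥤ CompHaus.{u}) : Prop :=
  ∀ ⦃X' Y' X Y : CompHaus.{u}⦄ (f' : X' ⟶ Y') (f : X ⟶ Y) (pX : X' ⟶ X) (pY : Y' ⟶ Y),
    Injective f → Injective f' →
    Bicomm f' f pX pY → Bicomm (F.map f') (F.map f) (F.map pX) (F.map pY)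

/-- `F` preserves finite preimages. -/
def PreservesFinitePreimages (F : CompHaus.{u} ⥤ CompHaus.{u}) : Prop :=
  ∀ ⦃X' Y' X Y : CompHaus.{u}⦄ (f' : X' ⟶ Y') (f : X ⟶ Y) (pX : X' ⟶ X) (pY : Y' ⟶ Y),
    Injective f → Injective f' → Finite X →
    Bicomm f' f pX pY → Bicomm (F.map f') (F.map f) (F.map pX) (F.map pY)

/-- `F` preserves 1-preimages. -/
def PreservesOnePreimages (F : CompHaus.{u} ⥤ CompHaus.{u}) : Prop :=
  ∀ ⦃X' Y' X Y : CompHaus.{u}⦄ (f' : X' ⟶ Y') (f : X ⟶ Y) (pX : X' ⟶ X) (pY : Y' ⟶ Y),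
    Injective f → Injective f' → Bijective pX →
    Bicomm f' f pX pY → Bicomm (F.map f') (F.map f) (F.map pX) (F.map pY)

/-- `F` preserves finite 1-preimages. -/
def PreservesFiniteOnePreimages (F : CompHaus.{u} ⥤ CompHaus.{u}) : Prop :=
  ∀ ⦃X' Y' X Y : CompHaus.{u}⦄ (f' : X' ⟶ Y') (f : X ⟶ Y) (pX : X' ⟶ X) (pY : Y' ⟶ Y),
    Injective f → Injective f' → Bijective pX → Finite X →
    Bicomm f' f pX pY → Bicomm (F.map f') (F.map f) (F.map pX) (F.map pY)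

end Pool.Agent.H.MP_6bfe6b_gt
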