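import Pool.Agent.H.MP_6bfe6b_gt.Defs

open CategoryTheory CategoryTheory.Limits Function Set

namespace Pool.Agent.H.MP_6bfe6b_gt

universe u

lemma map_comp_apply (F : CompHaus.{u} ⥤ CompHaus.{u}) {X Y Z : CompHaus.{u}} (f : X ⟶ Y)
    (g : Y ⟶ Z) (a : F.obj X) : F.map (f ≫ g) a = F.map g (F.map f a) := by
  rw [F.map_comp]; rfl

lemma exists_collapse' (Y : Type u) [TopologicalSpace Y] [CompactSpace Y] [T2Space Y] (Z : Set Y)
    (hZ : IsClosed Z) :
    ∃ (Φ : Type u) (q : C(Y, Φ → unitInterval)), q ⁻¹' {fun _ => 0} = Z := by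
  refine ⟨{φ : C(Y, unitInterval) // ∀ z ∈ Z, φ z = 0},
    ⟨fun y φ => φ.1 y, continuous_pi fun φ => φ.1.continuous⟩, ?_⟩
  ext y
  constructor
  · intro hy
    by_contra hyZ
    obtain ⟨g, hg0, hg1, hg⟩ := exists_continuous_zero_one_of_isClosed hZ
      (isClosed_singleton (x := y)) (disjoint_singleton_right.2 hyZ)
    let φ : {φ : C(Y, unitInterval) // ∀ z ∈ Z, φ z = 0} :=
      ⟨⟨fun t => ⟨g t, hg t⟩, by fun_prop⟩, fun z hz => Subtype.ext (hg0 hz)⟩
    have h1 : φ.1 y = 0 := congrFun hy φ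
    have h2 : g y = 0 := congrArg Subtype.val h1
    have h3 : g y = 1 := hg1 rfl
    linarith
  · intro hy
    funext φ
    exact φ.2 y hy

/-- collapsing a closed set to a point. -/
lemma exists_collapse (Y : CompHaus.{u}) (Z : Set Y) (hZ : IsClosed Z) :
    ∃ (W : CompHaus.{u}) (q : Y ⟶ W) (w : W), q ⁻¹' {w} = Z := by
  obtain ⟨Φ, q, hq⟩ := exists_collapse' Y Z hZ
  exact ⟨CompHaus.of (Φ → unitInterval), ConcreteCategory.ofHom (C := CompHaus.{u}) q,
    fun _ => 0, hq⟩

theorem q1 (F : CompHaus.{u} ⥤ CompHaus.{u}) (hm : Monomorphic F)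
    (h : PreservesFinitePreimages F) : PreservesPreimages F := by
  intro X' Y' X Y f' f pX pY hf hf' hb
  obtain ⟨hc, hb⟩ := hb
  have hcF : F.map pX ≫ F.map f = F.map f' ≫ F.map pY := by
    rw [← F.map_comp, hc, F.map_comp]
  refine ⟨hcF, fun a => ?_⟩
  have hca : ∀ c, F.map f (F.map pX c) = F.map pY (F.map f' c) := fun c => by
    rw [← map_comp_apply, ← map_comp_apply, hc]
  apply Subset.antisymm
  · rintro _ ⟨c, hc', rfl⟩
    have : F.map pX c = a := hc'
    show F.map pY (F.map f' c) = F.map f a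
    rw [← hca, this]
  · intro b hb'
    have hb2 : F.map pY b = F.map f a := hb'
    have hcl : IsClosed (range f) :=
      (isCompact_range (ConcreteCategory.hom f).continuous).isClosed
    obtain ⟨W, q, w, hq⟩ := exists_collapse Y (range f) hcl
    let P : CompHaus.{u} := CompHaus.of PUnit.{u+1}
    let j : P ⟶ W := ConcreteCategory.ofHom (C := CompHaus.{u}) (ContinuousMap.const _ w)
    let c : X ⟶ P := ConcreteCategory.ofHom (C := CompHaus.{u}) (ContinuousMap.const _ PUnit.unit)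
    have hqf : ∀ x, q (f x) = w := fun x => by
      have : f x ∈ q ⁻¹' {w} := hq ▸ mem_range_self x
      exact this
    have hcj : c ≫ j = f ≫ q := by
      ext x
      exact (hqf x).symm
    have hsq : Bicomm f' j (pX ≫ c) (pY ≫ q) := by
      refine ⟨by rw [Category.assoc, hcj, ← Category.assoc, hc, Category.assoc], fun x => ?_⟩
      ext y
      constructor
      · rintro ⟨t, -, rfl⟩
        have h1 : pY (f' t) = f (pX t) := (congrArg (fun g : X' ⟶ Y => g t) hc).symm
        show q (pY (f' t)) = w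
        rw [h1, hqf]
      · intro hy
        have h1 : pY y ∈ q ⁻¹' {w} := hy
        rw [hq] at h1
        obtain ⟨x0, hx0⟩ := h1
        have h2 : y ∈ pY ⁻¹' {f x0} := hx0.symm
        rw [← hb] at h2
        obtain ⟨t, -, ht⟩ := h2
        exact ⟨t, rfl, ht⟩
    have hj : Injective j := fun _ _ _ => rfl
    have := (h f' j (pX ≫ c) (pY ≫ q) hj hf' (inferInstanceAs (Finite PUnit)) hsq).2
      (F.map c a)
    have hmem : b ∈ F.map (pY ≫ q) ⁻¹' {F.map j (F.map c a)} := by
      show F.map (pY ≫ q) b = F.map j (F.map c a)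
      rw [← map_comp_apply, hcj, map_comp_apply, map_comp_apply, hb2]
    rw [← this] at hmem
    obtain ⟨t, -, ht⟩ := hmem
    refine ⟨t, ?_, ht⟩
    show F.map pX t = a
    apply hm f hf
    rw [hca, ht, hb2]

end Pool.Agent.H.MP_6bfe6b_gt
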